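import Pool.Agent.H18.TE.Targets

/-!
# PC1: homogeneous maps of small degree have at most one preimage up to scaling
-/

open MvPolynomial
open Pool.Agent.H12.ZD (pmap v O Res DenseOrbit NoInv)
open Pool.Agent.H18.HIT
open Pool.Agent.H8.ZA (HFam Const NA sz)
open Pool.Agent.H8.TD
open Pool.Agent.H18.TE

namespace Pool.Agent.H26.BKH

section

variable {N : ℕ} {k : Type} [Field k] {G : Tup N k} {θ : Po N k} {Φ : Polynomial (Po N k)}
  {Δ : Po N k} {R : Fin N → Polynomial (Po N k)}

theorem ev_ae (G : Tup N k) (q : Po N k) (x : Fin N → k) :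
    eval x (aeval G q) = eval (pmap G x) q := by
  induction q using MvPolynomial.induction_on with
  | C a => simp
  | add p q hp hq => rw [map_add, map_add, hp, hq, map_add]
  | mul_X p i hp => rw [map_mul, map_mul, hp, map_mul, aeval_X, eval_X]; rfl

theorem thd (h : Prim G θ Φ Δ R) {z P P' : Fin N → k} (hz : eval z Δ ≠ 0) (hP : pmap G P = z)
    (hP' : pmap G P' = z) (hθ : eval P θ = eval P' θ) : P = P' := by
  funext i
  have h1 := congrArg (eval P) (h.coord i)
  have h2 := congrArg (eval P') (h.coord i)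
  rw [map_mul, ev_ae, hP, eval_X, eval_ev2, hP] at h1
  rw [map_mul, ev_ae, hP', eval_X, eval_ev2, hP', ← hθ, ← h1] at h2
  exact (mul_left_cancel₀ hz h2).symm

/-- the number of the preimages -/
theorem card_pre (h : Prim G θ Φ Δ R) {z : Fin N → k} (hz : eval z Δ ≠ 0)
    (S : Finset (Fin N → k)) (hS : ∀ x ∈ S, pmap G x = z) : S.card ≤ Φ.natDegree := by
  classical
  have hm : (Φ.map (eval z)).Monic := h.monic.map _
  have h1 : S.card = (S.image fun x => eval x θ).card := by
    rw [Finset.card_image_of_injOn]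
    intro x hx x' hx' hxx
    exact thd h hz (hS x hx) (hS x' hx') hxx
  have h2 : (S.image fun x => eval x θ) ⊆ (Φ.map (eval z)).roots.toFinset := by
    intro t ht
    obtain ⟨x, hx, rfl⟩ := Finset.mem_image.1 ht
    rw [Multiset.mem_toFinset, Polynomial.mem_roots hm.ne_zero, Polynomial.IsRoot.def]
    have h3 := congrArg (eval x) h.root
    rw [eval_ev2, hS x hx, map_zero] at h3
    exact h3
  rw [h1]
  refine (Finset.card_le_card h2).trans ((Multiset.toFinset_card_le _).trans ?_)
  refine (Polynomial.card_roots' _).trans ?_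
  rw [h.monic.natDegree_map]

theorem eval_smul_of_hom {q : Po N k} {t : ℕ} (hq : q.IsHomogeneous t) (a : k) (x : Fin N → k) :
    eval (fun i => a * x i) q = a ^ t * eval x q := by
  rw [eval_eq, eval_eq, Finset.mul_sum]
  apply Finset.sum_congr rfl
  intro m hm
  have h1 : ∏ i ∈ m.support, (a * x i) ^ m i = a ^ t * ∏ i ∈ m.support, x i ^ m i := by
    rw [Finset.prod_congr rfl fun i _ => mul_pow a (x i) (m i), Finset.prod_mul_distrib,
      Finset.prod_pow_eq_pow_sum]
    congr 2
    have h2 := hq (mem_support_iff.mp hm)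
    rw [Finsupp.weight_apply] at h2
    simpa [Finsupp.sum] using h2
  rw [h1]
  ring

end

theorem pf_PC1 : T_PC1 := by
  classical
  intro N k _ _ _ T D θ Φ Δ R hN hD hT hprim hdeg
  have hne : NeZero (D : k) := ⟨by
    have : D ≠ 0 := by omega
    exact_mod_cast this⟩
  obtain ⟨ζ₀, hζ₀⟩ := HasEnoughRootsOfUnity.exists_primitiveRoot k D
  obtain ⟨Z, hZ⟩ : ∃ Z, Z = Polynomial.nthRootsFinset D (1 : k) := ⟨_, rfl⟩
  have hZc : Z.card = D := by rw [hZ]; exact hζ₀.card_nthRootsFinset
  have hZm : ∀ ζ ∈ Z, ζ ^ D = 1 := fun ζ hζ => by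
    rw [hZ] at hζ
    exact (Polynomial.mem_nthRootsFinset (by omega) _).1 hζ
  have hZ0 : ∀ ζ ∈ Z, ζ ≠ 0 := fun ζ hζ h0 => by
    have := hZm ζ hζ
    rw [h0, zero_pow (by omega)] at this
    exact zero_ne_one this
  refine ⟨X ⟨0, hN⟩ * Δ, mul_ne_zero (X_ne_zero _) hprim.ne, fun y hy S hS hprop => ?_⟩
  rw [map_mul, eval_X] at hy
  have hy0 : y ⟨0, hN⟩ ≠ 0 := left_ne_zero_of_mul hy
  have hyΔ : eval y Δ ≠ 0 := right_ne_zero_of_mul hy
  have hsm : ∀ (ζ : k) (x : Fin N → k), ζ ∈ Z → pmap T x = y →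
      pmap T (fun i => ζ * x i) = y := by
    intro ζ x hζ hx
    funext i
    change eval (fun i => ζ * x i) (T i) = y i
    rw [eval_smul_of_hom (hT i), hZm ζ hζ, one_mul]
    exact congrFun hx i
  have hx0 : ∀ x ∈ S, ∃ i, x i ≠ 0 := by
    intro x hx
    by_contra hcon
    push Not at hcon
    have h1 : x = fun i => (0 : k) * x i := by
      funext i
      rw [hcon i, mul_zero]
    have h2 := congrFun (hS x hx) ⟨0, hN⟩
    apply hy0
    rw [← h2]
    change eval x (T ⟨0, hN⟩) = 0
    rw [h1, eval_smul_of_hom (hT _), zero_pow (by omega), zero_mul]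
  by_contra hcard
  push Not at hcard
  obtain ⟨x, hx, x', hx', hne'⟩ := Finset.one_lt_card.1 hcard
  have hinj : ∀ z ∈ S, Set.InjOn (fun ζ : k => fun i => ζ * z i) Z := by
    intro z hz ζ _ ζ' _ h
    obtain ⟨i, hi⟩ := hx0 z hz
    exact mul_right_cancel₀ hi (congrFun h i)
  have hcards : (Z.image (fun ζ : k => fun i => ζ * x i) ∪
      Z.image (fun ζ : k => fun i => ζ * x' i)).card = 2 * D := by
    rw [Finset.card_union_of_disjoint, Finset.card_image_of_injOn (hinj x hx),
      Finset.card_image_of_injOn (hinj x' hx'), hZc]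
    · ring
    · rw [Finset.disjoint_left]
      intro w hw hw'
      obtain ⟨ζ, hζ, rfl⟩ := Finset.mem_image.1 hw
      obtain ⟨ζ', hζ', h⟩ := Finset.mem_image.1 hw'
      apply hne'
      refine (hprop x hx x' hx' (ζ'⁻¹ * ζ) fun i => ?_).symm
      have h1 : ζ' * x' i = ζ * x i := congrFun h i
      have h2 := hZ0 ζ' hζ'
      rw [mul_assoc, ← h1, inv_mul_cancel_left₀ h2]
  have h1 := card_pre hprim hyΔ (Z.image (fun ζ : k => fun i => ζ * x i) ∪
      Z.image (fun ζ : k => fun i => ζ * x' i)) (by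
    intro w hw
    rcases Finset.mem_union.1 hw with hw | hw
    · obtain ⟨ζ, hζ, rfl⟩ := Finset.mem_image.1 hw
      exact hsm ζ x hζ (hS x hx)
    · obtain ⟨ζ, hζ, rfl⟩ := Finset.mem_image.1 hw
      exact hsm ζ x' hζ (hS x' hx'))
  rw [hcards] at h1
  omega

end Pool.Agent.H26.BKH
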